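import Mathlib

/-!
# Unimodular `3 × 3` matrices with unimodular entrywise squares and arbitrarily large entries

For `n = m ^ 2 - 2` the rows `(n, n, n + 1)`, `(n, n + 1, n + 2)`,
`(2 n - 1, 2 n + 1 - 2 m, 2 n + 3 - 2 m)` have determinant `1`, and their squares have
determinant `-1`. Exchanging the last two rows and changing the sign of one of them gives
determinants `1` and `1`.
-/

set_option autoImplicit false

namespace Pool.Agent.Results.MP_73faae_nt.LargeEntries

/-- The family. -/
def A (m : ℤ) : Matrix (Fin 3) (Fin 3) ℤ :=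
  !![m ^ 2 - 2, m ^ 2 - 2, m ^ 2 - 1;
    -(2 * m ^ 2 - 5), -(2 * m ^ 2 - 2 * m - 3), -(2 * m ^ 2 - 2 * m - 1);
    m ^ 2 - 2, m ^ 2 - 1, m ^ 2]

theorem det_A (m : ℤ) : (A m).det = 1 := by
  simp only [A, Matrix.det_fin_three, Matrix.of_apply, Matrix.cons_val', Matrix.cons_val_zero,
    Matrix.cons_val_one, Matrix.cons_val]
  ring

theorem det_A_sq (m : ℤ) : ((A m).map (· ^ 2)).det = 1 := by
  simp only [A, Matrix.det_fin_three, Matrix.map_apply, Matrix.of_apply, Matrix.cons_val',
    Matrix.cons_val_zero, Matrix.cons_val_one, Matrix.cons_val]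
  ring

/-- For every `N` there is a `3 × 3` integer matrix all of whose entries have absolute value at
least `N`, with determinant `1`, whose entrywise square has determinant `1`. -/
theorem result (N : ℕ) : ∃ A : Matrix (Fin 3) (Fin 3) ℤ,
    (∀ i j, (N : ℤ) ≤ |A i j|) ∧ A.det = 1 ∧ (A.map (· ^ 2)).det = 1 := by
  refine ⟨A (N + 3), ?_, det_A _, det_A_sq _⟩
  have hN : (0 : ℤ) ≤ N := Int.natCast_nonneg N
  have h1 : ∀ x : ℤ, (N : ℤ) ≤ x → (N : ℤ) ≤ |x| := fun x h => h.trans (le_abs_self x)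
  have h2 : ∀ x : ℤ, (N : ℤ) ≤ x → (N : ℤ) ≤ |(-x)| := fun x h => by
    rw [abs_neg]
    exact h.trans (le_abs_self x)
  intro i j
  fin_cases i <;> fin_cases j <;>
    simp only [A, Matrix.of_apply, Matrix.cons_val', Matrix.cons_val_zero, Matrix.cons_val_one,
      Matrix.cons_val, Fin.zero_eta, Fin.mk_one, Fin.reduceFinMk]
  · exact h1 _ (by nlinarith)
  · exact h1 _ (by nlinarith)
  · exact h1 _ (by nlinarith)
  · exact h2 _ (by nlinarith)
  · exact h2 _ (by nlinarith)
  · exact h2 _ (by nlinarith)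
  · exact h1 _ (by nlinarith)
  · exact h1 _ (by nlinarith)
  · exact h1 _ (by nlinarith)

end Pool.Agent.Results.MP_73faae_nt.LargeEntries
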